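import Pool.Agent.H60.FG.Defs

/-!
# Rows G1, G2, G3, G4 (MP_2822c4_an): words of the free group
-/

set_option autoImplicit false

open scoped Classical

namespace Pool.Agent.H12.FG

open Pool.Agent.H60.FG

variable {ι : Type}

lemma toWord_of_red {w : List (ι × Bool)} (h : FreeGroup.IsReduced w) :
    (FreeGroup.mk w).toWord = w := by
  classical
  rw [FreeGroup.toWord_mk]
  exact h.reduce_eq

lemma red_word (z : FreeGroup ι) : FreeGroup.IsReduced z.toWord := by
  classical
  exact FreeGroup.isReduced_toWord

lemma red_append {u v : List (ι × Bool)} {s : ι × Bool} (hu : FreeGroup.IsReduced (u ++ [s]))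
    (hv : FreeGroup.IsReduced v) (h : v.head? = some s) : FreeGroup.IsReduced (u ++ v) := by
  unfold FreeGroup.IsReduced at *
  rw [List.isChain_append] at hu ⊢
  refine ⟨hu.1, hv, ?_⟩
  intro x hx y hy
  refine hu.2.2 x hx y ?_
  rw [h] at hy
  simpa using hy

lemma word_mul {p z : FreeGroup ι} {s : ι × Bool} (hp : RC p s) (hz : z ∈ Hs s) :
    (p * z).toWord = p.toWord ++ z.toWord := by
  classical
  have h1 : FreeGroup.IsReduced (p.toWord ++ z.toWord) := red_append hp (red_word z) hz
  have h2 : p * z = FreeGroup.mk (p.toWord ++ z.toWord) := by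
    rw [← FreeGroup.mul_mk, FreeGroup.mk_toWord, FreeGroup.mk_toWord]
  rw [h2, toWord_of_red h1]

lemma norm_eq (z : FreeGroup ι) : FreeGroup.norm z = z.toWord.length := rfl

theorem pf_G2 : T_G2 := by
  intro ι s p z hp hz
  have h1 := word_mul hp hz
  refine ⟨?_, ?_⟩
  · rw [norm_eq, norm_eq, norm_eq, h1, List.length_append]
  · intro s' hs'
    show (p * z).toWord.head? = some s'
    rw [h1]
    have h2 : p.toWord.head? = some s' := hs'
    rw [List.head?_append, h2]
    rfl

theorem pf_G3 : T_G3 := by
  classical
  intro ι s M z hz hM hMz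
  obtain ⟨w, hw⟩ : ∃ w : List (ι × Bool), w = z.toWord := ⟨_, rfl⟩
  have hwr : FreeGroup.IsReduced w := by
    rw [hw]
    exact red_word z
  have hzw : z = FreeGroup.mk w := by rw [hw, FreeGroup.mk_toWord]
  have hlen : M < w.length := by
    rw [hw]
    exact hMz
  have hhead : w.head? = some s := by
    rw [hw]
    exact hz
  have hrt : ∀ j, FreeGroup.IsReduced (w.take j) := by
    intro j
    unfold FreeGroup.IsReduced at *
    exact hwr.take j
  have hrd : FreeGroup.IsReduced (w.drop M) := by
    unfold FreeGroup.IsReduced at *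
    exact hwr.drop M
  have hht : ∀ j, 1 ≤ j → (w.take j).head? = some s := by
    intro j hj
    rw [List.head?_take, if_neg (by omega)]
    exact hhead
  have ht1 : w.take M ++ [w[M]] = w.take (M + 1) := by
    rw [List.take_append_getElem]
  have hq : (FreeGroup.mk (w.take M)).toWord = w.take M := toWord_of_red (hrt M)
  have hq1 : FreeGroup.mk (w.take M) * FreeGroup.mk [w[M]] = FreeGroup.mk (w.take (M + 1)) := by
    rw [FreeGroup.mul_mk, ht1]
  refine ⟨FreeGroup.mk (w.take M), FreeGroup.mk (w.drop M), w[M], ?_, ?_, ?_, ?_, ?_, ?_, ?_, ?_, ?_⟩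
  · rw [FreeGroup.mul_mk, List.take_append_drop, hzw]
  · show (FreeGroup.mk (w.take M)).toWord.head? = some s
    rw [hq]
    exact hht M hM
  · rw [norm_eq, hq, List.length_take]
    omega
  · show FreeGroup.IsReduced ((FreeGroup.mk (w.take M)).toWord ++ [w[M]])
    rw [hq, ht1]
    exact hrt _
  · show (FreeGroup.mk (w.drop M)).toWord.head? = some w[M]
    rw [toWord_of_red hrd, List.head?_drop]
    simp [hlen]
  · rw [norm_eq, toWord_of_red hrd, List.length_drop, norm_eq, ← hw]
    omega
  · show (FreeGroup.mk (w.take M) * FreeGroup.mk [w[M]]).toWord.head? = some s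
    rw [hq1, toWord_of_red (hrt _)]
    exact hht _ (by omega)
  · rw [norm_eq, hq1, toWord_of_red (hrt _), List.length_take]
    omega
  · intro p hp
    show FreeGroup.IsReduced ((p * FreeGroup.mk (w.take M)).toWord ++ [w[M]])
    have h1 : (FreeGroup.mk (w.take M)) ∈ Hs s := by
      show (FreeGroup.mk (w.take M)).toWord.head? = some s
      rw [hq]
      exact hht M hM
    rw [word_mul hp h1, hq, List.append_assoc, ht1]
    exact red_append hp (hrt _) (hht _ (by omega))

/-- one letter at the end -/
lemma one_letter {s a : ι × Bool} {z : FreeGroup ι} (hz : z ∈ Hs s) (h2 : 2 ≤ FreeGroup.norm z) :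
    z * FreeGroup.mk [a] ∈ Hs s := by
  classical
  have hhead : z.toWord.head? = some s := hz
  by_cases h : RC z a
  · have h1 : (z * FreeGroup.mk [a]).toWord = z.toWord ++ (FreeGroup.mk [a]).toWord :=
      word_mul (s := a) h (by
        show (FreeGroup.mk [a]).toWord.head? = some a
        rw [toWord_of_red (by unfold FreeGroup.IsReduced; simp)]
        rfl)
    show (z * FreeGroup.mk [a]).toWord.head? = some s
    rw [h1, List.head?_append, hhead]
    rfl
  · -- the last letter is the inverse of `a`
    obtain ⟨w, hw⟩ : ∃ w : List (ι × Bool), w = z.toWord := ⟨_, rfl⟩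
    have hwne : w ≠ [] := by
      intro h0
      rw [← hw, h0] at hhead
      simp at hhead
    obtain ⟨u, b, hub⟩ : ∃ u b, w = u ++ [b] :=
      ⟨w.dropLast, w.getLast hwne, (List.dropLast_append_getLast hwne).symm⟩
    have hr : FreeGroup.IsReduced (u ++ [b]) := by
      rw [← hub, hw]
      exact red_word z
    have hba : ¬ (b.1 = a.1 → b.2 = a.2) := by
      intro h3
      apply h
      show FreeGroup.IsReduced (z.toWord ++ [a])
      rw [← hw, hub]
      unfold FreeGroup.IsReduced at *
      rw [List.isChain_append]
      refine ⟨hr, by simp, ?_⟩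
      intro x hx y hy
      rw [List.getLast?_append] at hx
      simp at hx hy
      subst hx
      subst hy
      exact h3
    have hb1 : b.1 = a.1 := by
      by_contra h3
      exact hba fun h4 => absurd h4 h3
    have hb2 : b.2 ≠ a.2 := fun h3 => hba fun _ => h3
    have hb : b = (a.1, !a.2) := by
      refine Prod.ext hb1 ?_
      cases h3 : b.2 <;> cases h4 : a.2 <;> simp_all
    have h5 : z * FreeGroup.mk [a] = FreeGroup.mk u := by
      have h6 : z = FreeGroup.mk u * FreeGroup.mk [b] := by
        rw [FreeGroup.mul_mk, ← hub, hw, FreeGroup.mk_toWord]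
      have h7 : FreeGroup.mk [b] * FreeGroup.mk [a] = (1 : FreeGroup ι) := by
        have h8 : FreeGroup.mk [b] = (FreeGroup.mk [a])⁻¹ := by
          rw [FreeGroup.inv_mk, hb]
          rfl
        rw [h8, inv_mul_cancel]
      rw [h6, mul_assoc, h7, mul_one]
    have hru : FreeGroup.IsReduced u := by
      unfold FreeGroup.IsReduced at *
      rw [List.isChain_append] at hr
      exact hr.1
    have hune : u ≠ [] := by
      intro h0
      rw [norm_eq, ← hw, hub, h0] at h2
      simp at h2
    show (z * FreeGroup.mk [a]).toWord.head? = some s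
    rw [h5, toWord_of_red hru]
    rw [← hw, hub, List.head?_append] at hhead
    cases hu : u.head? with
    | none => exact absurd (List.head?_eq_none_iff.1 hu) hune
    | some x => rw [hu] at hhead; simpa using hhead

theorem pf_G1 : T_G1 := by
  classical
  intro ι s z u hz hu
  have key : ∀ (L : List (ι × Bool)) (z : FreeGroup ι), z ∈ Hs s → L.length < FreeGroup.norm z →
      z * FreeGroup.mk L ∈ Hs s := by
    intro L
    induction L with
    | nil =>
      intro z hz _
      have : (FreeGroup.mk [] : FreeGroup ι) = 1 := rfl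
      rw [this, mul_one]
      exact hz
    | cons a L ih =>
      intro z hz hL
      rw [List.length_cons] at hL
      have h1 : FreeGroup.mk (a :: L) = FreeGroup.mk [a] * FreeGroup.mk L := by
        rw [FreeGroup.mul_mk]
        rfl
      rw [h1, ← mul_assoc]
      refine ih _ (one_letter hz (by omega)) ?_
      have h2 : FreeGroup.norm z ≤ FreeGroup.norm (z * FreeGroup.mk [a]) +
          FreeGroup.norm (FreeGroup.mk [a])⁻¹ := by
        have h3 : z = z * FreeGroup.mk [a] * (FreeGroup.mk [a])⁻¹ := by
          rw [mul_assoc, mul_inv_cancel, mul_one]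
        calc FreeGroup.norm z = FreeGroup.norm (z * FreeGroup.mk [a] * (FreeGroup.mk [a])⁻¹) := by
              rw [← h3]
          _ ≤ _ := FreeGroup.norm_mul_le _ _
      have h3 : FreeGroup.norm (FreeGroup.mk [a])⁻¹ ≤ 1 := by
        rw [FreeGroup.norm_inv_eq]
        exact FreeGroup.norm_mk_le
      omega
  have h1 := key u.toWord z hz hu
  rw [FreeGroup.mk_toWord] at h1
  exact h1

end Pool.Agent.H12.FG
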